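import Pool.Agent.Work.MP_e35540_an.Asm
import Pool.Agent.Work.MP_e35540_an.PartF2
import Pool.Agent.Work.MP_e35540_an.PartF3
import Pool.Agent.Work.MP_e35540_an.PartF5

/-!
Every nuclear power space of the second kind `F(λ, a)` has the quasiequivalence property.

The definitions used in the statement are in `Pool/Agent/Work/MP_e35540_an/Defs0.lean`.
-/

namespace Pool.Agent.Results.MP_e35540_an.NuclearSecondKindQEP

open QEP

/-- If `0 < a i`, `0 ≤ lam i ≤ 1` and the power space of the second kind `F(lam, a)` is nuclear,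
then any two bases of `F(lam, a)` are quasiequivalent. -/
theorem result (lam a : ℕ → ℝ) (ha : ∀ i, 0 < a i) (h0 : ∀ i, 0 ≤ lam i) (h1 : ∀ i, lam i ≤ 1)
    (hN : IsNuclearSpace (FSpace lam a ha)) : HasQEP (FSpace lam a ha) :=
  Asm.main_of partF2 partF3 partF5 lam a ha h0 h1 hN

end Pool.Agent.Results.MP_e35540_an.NuclearSecondKindQEP
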